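import Pool.Agent.TH630.Fill.Final

/-!
# Super-Euclidean filling functions of nilpotent Lie groups

Every non-abelian connected, simply connected nilpotent Lie group has a super-Euclidean filling
volume function.

The group is given in triangular polynomial coordinates (coordinates along a strong Malcev
basis): `NilLaw n` is a group law `(x y)_i = x_i + y_i + P_i (x, y)` on real `n`-space, where the
polynomial `P_i` depends only on the coordinates of index less than `i`. By a classical theorem
of Malcev every connected, simply connected nilpotent Lie group of dimension `n` is isomorphic to
such a group. The matrix `B` is the value at the identity of an arbitrary left-invariant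
Riemannian metric.

Idea of the proof. Assume that all filling functions are at most Euclidean. Then the net points of
a partition of unity at scale `ρ` can be joined by chains of volume `O(ρ ^ n)`, and the resulting
`n`-cochain is cohomologous, through bounded cochains, to the signed volume of barycentric
simplices. Because the group has a quadratically distorted central direction, the partition of
unity can be chosen such that its Jacobians are `O(ρ ^ (-n-1))`. Comparing volumes of large balls
gives a contradiction, as the volume growth is polynomial.
-/

namespace Pool.Agent.Results.MP_6a08f9_gt.NilpotentFilling

open Pool.Agent.TH630

theorem result {n : ℕ} (G : NilLaw n) (hG : ∃ x y, G.mul x y ≠ G.mul y x)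
    (B : Matrix (Fin n) (Fin n) ℝ) (hB : B.PosDef) :
    ∃ k : ℕ, 1 ≤ k ∧ k + 1 ≤ n ∧ G.SuperEuclidean B k :=
  main_theorem G hG B hB

end Pool.Agent.Results.MP_6a08f9_gt.NilpotentFilling
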